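import Pool.Agent.Lib.MP_6a1159_al.Final

/-! Dehn twists about separating curves. -/

set_option autoImplicit false

open scoped ENNReal

namespace Pool.Agent.Lib.MP_6a1159_al

section sep

variable {ι : Type} [DecidableEq ι]

omit [DecidableEq ι] in
theorem relator_congr {H : Type} [Group H] (F F' : FreeGroup (ι × Bool) →* H) (T : List ι)
    (h : ∀ j ∈ T, F (fa j) = F' (fa j) ∧ F (fb j) = F' (fb j)) :
    F (relator T) = F' (relator T) := by
  unfold relator
  rw [map_list_prod, map_list_prod, List.map_map, List.map_map]
  congr 1
  apply List.map_congr_left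
  intro j hj
  obtain ⟨h1, h2⟩ := h j hj
  simp only [Function.comp_apply, map_mul, map_inv, h1, h2]

omit [DecidableEq ι] in
theorem relator_append (T T' : List ι) : relator (T ++ T') = relator T * relator T' := by
  simp [relator]

/-- Conjugation of the handles in `M` by the `k`-th power of the curve `relator M`. -/
def sepFree (M : List ι) (k : ℤ) : FreeGroup (ι × Bool) →* FreeGroup (ι × Bool) :=
  FreeGroup.lift fun x =>
    if x.1 ∈ M then relator M ^ k * FreeGroup.of x * relator M ^ (-k) else FreeGroup.of x

theorem sepFree_in (M : List ι) (k : ℤ) (x : ι × Bool) (hx : x.1 ∈ M) :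
    sepFree M k (FreeGroup.of x) = relator M ^ k * FreeGroup.of x * relator M ^ (-k) := by
  rw [sepFree, FreeGroup.lift_apply_of, if_pos hx]

theorem sepFree_out (M : List ι) (k : ℤ) (x : ι × Bool) (hx : x.1 ∉ M) :
    sepFree M k (FreeGroup.of x) = FreeGroup.of x := by
  rw [sepFree, FreeGroup.lift_apply_of, if_neg hx]

theorem sepFree_rel_in (M : List ι) (k : ℤ) : sepFree M k (relator M) = relator M := by
  have h1 := relator_congr (sepFree M k) (MulAut.conj (relator M ^ k)).toMonoidHom M (by
    intro j hj
    constructor
    · show sepFree M k (FreeGroup.of (j, false)) = _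
      rw [sepFree_in M k _ hj, zpow_neg]
      rfl
    · show sepFree M k (FreeGroup.of (j, true)) = _
      rw [sepFree_in M k _ hj, zpow_neg]
      rfl)
  rw [h1]
  show relator M ^ k * relator M * (relator M ^ k)⁻¹ = relator M
  group

theorem sepFree_rel_out (M : List ι) (k : ℤ) (T : List ι) (hT : ∀ j ∈ T, j ∉ M) :
    sepFree M k (relator T) = relator T :=
  relator_congr (sepFree M k) (MonoidHom.id _) T fun j hj =>
    ⟨sepFree_out M k (j, false) (hT j hj), sepFree_out M k (j, true) (hT j hj)⟩

theorem sepFree_relator {L M A B : List ι} (hL : L = A ++ M ++ B) (hA : ∀ j ∈ A, j ∉ M)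
    (hB : ∀ j ∈ B, j ∉ M) (k : ℤ) : sepFree M k (relator L) = relator L := by
  rw [hL, relator_append, relator_append, map_mul, map_mul, sepFree_rel_in,
    sepFree_rel_out M k A hA, sepFree_rel_out M k B hB]

theorem sepFree_comp (M : List ι) (k l : ℤ) (w : FreeGroup (ι × Bool)) :
    sepFree M k (sepFree M l w) = sepFree M (k + l) w := by
  have h1 : (sepFree M k).comp (sepFree M l) = sepFree M (k + l) := by
    refine FreeGroup.ext_hom _ _ fun x => ?_
    rw [MonoidHom.comp_apply]
    by_cases hx : x.1 ∈ M
    · rw [sepFree_in M l x hx, sepFree_in M (k + l) x hx, map_mul, map_mul, map_zpow, map_zpow,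
        sepFree_rel_in, sepFree_in M k x hx]
      group
    · rw [sepFree_out M l x hx, sepFree_out M (k + l) x hx, sepFree_out M k x hx]
  exact DFunLike.congr_fun h1 w

theorem sepFree_zero (M : List ι) (w : FreeGroup (ι × Bool)) : sepFree M 0 w = w := by
  have h1 : sepFree M 0 = MonoidHom.id _ := by
    refine FreeGroup.ext_hom _ _ fun x => ?_
    by_cases hx : x.1 ∈ M
    · rw [sepFree_in M 0 x hx]
      simp
    · rw [sepFree_out M 0 x hx]
      rfl
  rw [h1]
  rfl

/-- The endomorphism of the surface group induced by `sepFree M k`. -/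
def sepHom (L M : List ι) (h : ∀ k : ℤ, sepFree M k (relator L) = relator L) (k : ℤ) :
    SG L →* SG L :=
  PresentedGroup.toGroup (f := fun x => proj L (sepFree M k (FreeGroup.of x))) (by
    intro r hr
    rw [Set.mem_singleton_iff] at hr
    have h1 : FreeGroup.lift (fun x => proj L (sepFree M k (FreeGroup.of x))) =
        (proj L).comp (sepFree M k) := by
      ext x
      simp
    rw [h1, hr, MonoidHom.comp_apply, h]
    exact PresentedGroup.one_of_mem (Set.mem_singleton _))

theorem sepHom_proj (L M : List ι) (h : ∀ k : ℤ, sepFree M k (relator L) = relator L) (k : ℤ)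
    (w : FreeGroup (ι × Bool)) : sepHom L M h k (proj L w) = proj L (sepFree M k w) := by
  have h1 : (sepHom L M h k).comp (proj L) = (proj L).comp (sepFree M k) := by
    refine FreeGroup.ext_hom _ _ fun x => ?_
    show FreeGroup.lift (fun x => proj L (sepFree M k (FreeGroup.of x))) (FreeGroup.of x) = _
    rw [FreeGroup.lift_apply_of]
    rfl
  exact DFunLike.congr_fun h1 w

/-- The twist about the separating curve `relator M`: the handles in `M` are conjugated by it, the
other handles are fixed. -/
def sepTwist (L M : List ι) (h : ∀ k : ℤ, sepFree M k (relator L) = relator L) : AutPlus L :=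
  ⟨{ toFun := sepHom L M h 1
     invFun := sepHom L M h (-1)
     left_inv := fun w => by
       obtain ⟨w, rfl⟩ := PresentedGroup.mk_surjective _ w
       show sepHom L M h (-1) (sepHom L M h 1 (proj L w)) = proj L w
       rw [sepHom_proj, sepHom_proj, sepFree_comp]
       exact congrArg (proj L) (sepFree_zero M w)
     right_inv := fun w => by
       obtain ⟨w, rfl⟩ := PresentedGroup.mk_surjective _ w
       show sepHom L M h 1 (sepHom L M h (-1) (proj L w)) = proj L w
       rw [sepHom_proj, sepHom_proj, sepFree_comp]
       exact congrArg (proj L) (sepFree_zero M w)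
     map_mul' := map_mul _ },
    fun x y => inter_of_free L (sepFree M 1) (h 1) (sepHom L M h 1)
      (fun w => sepHom_proj L M h 1 w) x y⟩

theorem sepTwist_proj (L M : List ι) (h : ∀ k : ℤ, sepFree M k (relator L) = relator L)
    (w : FreeGroup (ι × Bool)) : (sepTwist L M h).1 (proj L w) = proj L (sepFree M 1 w) :=
  sepHom_proj L M h 1 w

theorem sepTwist_inv_proj (L M : List ι) (h : ∀ k : ℤ, sepFree M k (relator L) = relator L)
    (w : FreeGroup (ι × Bool)) : (sepTwist L M h)⁻¹.1 (proj L w) = proj L (sepFree M (-1) w) :=
  sepHom_proj L M h (-1) w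

theorem sepTwist_inv_pow (L M : List ι) (h : ∀ k : ℤ, sepFree M k (relator L) = relator L)
    (n : ℕ) (w : FreeGroup (ι × Bool)) :
    ((sepTwist L M h)⁻¹ ^ n).1 (proj L w) = proj L (sepFree M (-n) w) := by
  induction n generalizing w with
  | zero =>
    rw [pow_zero]
    show proj L w = _
    rw [Nat.cast_zero, neg_zero, sepFree_zero]
  | succ n ih =>
    have e : -(n : ℤ) + -1 = -((n + 1 : ℕ) : ℤ) := by push_cast; ring
    rw [pow_succ]
    show ((sepTwist L M h)⁻¹ ^ n).1 ((sepTwist L M h)⁻¹.1 (proj L w)) = _
    rw [sepTwist_inv_proj, ih, sepFree_comp, e]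

end sep

theorem sepFree_take (g n : ℕ) (k : ℤ) :
    sepFree ((List.finRange g).take n) k (relator (List.finRange g)) =
      relator (List.finRange g) := by
  have h1 : ((List.finRange g).take n ++ (List.finRange g).drop n).Nodup := by
    rw [List.take_append_drop]
    exact List.nodup_finRange g
  rw [List.nodup_append] at h1
  exact sepFree_relator (A := []) (B := (List.finRange g).drop n)
    (by rw [List.nil_append, List.take_append_drop]) (by simp)
    (fun j hj hj' => h1.2.2 j hj' j hj rfl) k

/-- The class of the Dehn twist about the separating curve `∏ i < n, [a_i, b_i]`, which cuts off a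
subsurface of genus `n`: the generators `a_i, b_i` with `i < n` are conjugated by this curve, the
other generators are fixed. -/
def sepTw (g n : ℕ) : Mod (List.finRange g) :=
  QuotientGroup.mk (sepTwist (List.finRange g) ((List.finRange g).take n) (sepFree_take g n))

/-- The stable commutator length of the Dehn twist about a separating curve which cuts off a
subsurface of genus `n`, in the mapping class group of the closed oriented surface of genus `g`. -/
noncomputable def phiSep (g n : ℕ) : ℝ≥0∞ := stableCL (sepTw g n)

end Pool.Agent.Lib.MP_6a1159_al
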