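import Pool.Agent.Lib.MP_6a1159_al.Mg.G017

/-! The inequality between the stable commutator lengths of Dehn twists about separating and about
nonseparating curves. -/

set_option autoImplicit false

open scoped ENNReal

namespace Pool.Agent.Lib.MP_6a1159_al

theorem final_sep (g : ℕ) (hg : 2 ≤ g) (n : ℕ) (hn : 1 ≤ n) (hng : n < g) (m : ℕ) (hm : 2 ≤ m)
    (j : Fin (m ^ (2 * g) * (g - 1) + 1)) :
    ((m ^ (2 * g) : ℕ) : ℝ≥0∞) * phi (m ^ (2 * g) * (g - 1) + 1) j ≤ phiSep g n := by
  obtain ⟨q, rfl⟩ : ∃ q, g = q + 1 := ⟨g - 1, by omega⟩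
  obtain ⟨n', rfl⟩ : ∃ n', n = n' + 1 := ⟨n - 1, by omega⟩
  obtain ⟨i, R, hR⟩ : ∃ i R, List.finRange q = i :: R := by
    cases h : List.finRange q with
    | nil =>
      have := congrArg List.length h
      simp at this
      omega
    | cons i R => exact ⟨i, R, rfl⟩
  set Q := R.take n' with hQ
  set P := R.drop n' with hP
  have hJ : List.finRange q = J0 i Q P := by
    rw [hR, J0, hQ, hP, List.take_append_drop]
  have hnd : (J0 i Q P).Nodup := by
    rw [← hJ]
    exact List.nodup_finRange q
  have hall : ∀ j, j ∈ J0 i Q P := by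
    intro j
    rw [← hJ]
    exact List.mem_finRange j
  have hL : (List.finRange (q + 1)).map finSuccEquivLast = (J0 i Q P).map some ++ [none] := by
    rw [List.finRange_succ_last, List.map_append, List.map_map, ← hJ, List.map_cons, List.map_nil,
      finSuccEquivLast_last]
    congr 1
    apply List.map_congr_left
    intro k _
    exact finSuccEquivLast_castSucc k
  have hM : ((List.finRange (q + 1)).take (n' + 1)).map finSuccEquivLast = JM i Q := by
    rw [List.map_take, hL]
    show (some i :: (List.map some (Q ++ P) ++ [none])).take (n' + 1) = _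
    rw [List.take_succ_cons, JM, List.map_cons, List.cons.injEq]
    refine ⟨rfl, ?_⟩
    have hlen : n' ≤ (List.map some (Q ++ P)).length := by
      rw [List.length_map, hQ, hP, List.take_append_drop]
      have := congrArg List.length hR
      rw [List.length_finRange, List.length_cons] at this
      omega
    rw [List.take_append_of_le_length hlen, ← List.map_take, hQ, hP, List.take_append_drop]
  have hs : ∀ k : ℤ, sepFree (JM i Q) k (relator (BL (J0 i Q P))) = relator (BL (J0 i Q P)) := by
    have hn' := hnd
    rw [List.nodup_cons, List.mem_append, not_or, List.nodup_append] at hn'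
    obtain ⟨⟨hiQ, hiP⟩, hnQ, hnP, hQP'⟩ := hn'
    exact sepFree_relator (BL_split i Q P) hA (hB hiP fun j hj hj' => hQP' j hj' j hj rfl)
  obtain ⟨S, hS, hI⟩ := exists_rotate finSuccEquivLast (List.finRange (q + 1))
    ((J0 i Q P).map some) [none] hL
  obtain ⟨E, hE⟩ := exists_modEquiv S hI
  have hET : E (sepTw (q + 1) (n' + 1)) =
      (QuotientGroup.mk (sepTwist (BL (J0 i Q P)) (JM i Q) hs) : Mod (BL (J0 i Q P))) := by
    refine hE _ _ fun y => ?_
    obtain ⟨w, rfl⟩ := PresentedGroup.mk_surjective _ y
    show (sepTwist (BL (J0 i Q P)) (JM i Q) hs).1 (S (proj _ w)) =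
      S ((sepTwist (List.finRange (q + 1)) ((List.finRange (q + 1)).take (n' + 1))
        (sepFree_take (q + 1) (n' + 1))).1 (proj _ w))
    rw [hS, sepTwist_proj, hS]
    have h1 := sepTwist_proj (BL (J0 i Q P)) (JM i Q) hs
      (FreeGroup.map (fun x => (finSuccEquivLast x.1, x.2)) w)
    refine h1.trans ?_
    show proj (BL (J0 i Q P)) _ = proj (BL (J0 i Q P)) _
    congr 1
    have hrel : FreeGroup.map (fun x : Fin (q + 1) × Bool => (finSuccEquivLast x.1, x.2))
        (relator ((List.finRange (q + 1)).take (n' + 1))) = relator (JM i Q) := by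
      rw [← hM]
      unfold relator
      rw [map_list_prod, List.map_map, List.map_map]
      congr 1
    have h2 : (sepFree (JM i Q) 1).comp
        (FreeGroup.map (fun x : Fin (q + 1) × Bool => (finSuccEquivLast x.1, x.2))) =
        (FreeGroup.map (fun x : Fin (q + 1) × Bool => (finSuccEquivLast x.1, x.2))).comp
          (sepFree ((List.finRange (q + 1)).take (n' + 1)) 1) := by
      refine FreeGroup.ext_hom _ _ fun x => ?_
      rw [MonoidHom.comp_apply, MonoidHom.comp_apply, FreeGroup.map.of]
      by_cases hx : x.1 ∈ (List.finRange (q + 1)).take (n' + 1)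
      · have hx' : finSuccEquivLast x.1 ∈ JM i Q := by
          rw [← hM]
          exact List.mem_map.2 ⟨_, hx, rfl⟩
        rw [sepFree_in _ _ _ hx, sepFree_in _ _ _ hx', map_mul, map_mul, map_zpow, map_zpow,
          hrel, FreeGroup.map.of]
      · have hx' : finSuccEquivLast x.1 ∉ JM i Q := by
          rw [← hM]
          intro h3
          obtain ⟨z, hz, hz'⟩ := List.mem_map.1 h3
          rw [finSuccEquivLast.injective hz'] at hz
          exact hx hz
        rw [sepFree_out _ _ _ hx, sepFree_out _ _ _ hx', FreeGroup.map.of]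
    exact DFunLike.congr_fun h2 w
  obtain ⟨κ2, _, L2, a1, a2, a3, a4⟩ := part_a i Q P m hm hnd hall hs
  rw [Fintype.card_fin] at a3 a4
  have hlen : (J0 i Q P).length = q := by
    rw [← hJ, List.length_finRange]
  rw [hlen] at a3
  rw [phi_eq, phi0_eq L2 a1 a2 _ (by rw [a3]; rfl) j, phiSep, stableCL_eq_scl, ← scl_equiv E, hET]
  exact a4

end Pool.Agent.Lib.MP_6a1159_al
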